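import Pool.Agent.Helper70.MM.Goals3

open MeasureTheory Set Metric
open scoped ENNReal

namespace Pool.Agent.Helper90.MM

open Pool.Agent.Helper70.MM

private lemma s2a : (1.4 : ℝ) ≤ Real.sqrt 2 := Real.le_sqrt_of_sq_le (by norm_num)
private lemma s2b : Real.sqrt 2 ≤ (1.42 : ℝ) := Real.sqrt_le_iff.mpr ⟨by norm_num, by norm_num⟩
private lemma s3a : (1.7 : ℝ) ≤ Real.sqrt 3 := Real.le_sqrt_of_sq_le (by norm_num)
private lemma s3b : Real.sqrt 3 ≤ (1.74 : ℝ) := Real.sqrt_le_iff.mpr ⟨by norm_num, by norm_num⟩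

/-- Upper bound `e^{-a} ≤ e^{-1}/(1+(b-1)+(b-1)²/2)` for `a ≥ b ≥ 1`. -/
private lemma exp_up {a b : ℝ} (hb : 1 ≤ b) (hab : b ≤ a) :
    Real.exp (-a) ≤ 0.3679 / (1 + (b - 1) + (b - 1) ^ 2 / 2) := by
  have h1 : Real.exp (-a) ≤ Real.exp (-b) := Real.exp_le_exp.mpr (by linarith)
  refine h1.trans ?_
  have h2 := Real.quadratic_le_exp_of_nonneg (x := b - 1) (by linarith)
  have h3 : 0 < 1 + (b - 1) + (b - 1) ^ 2 / 2 := by nlinarith [pow_two_nonneg (b - 1)]
  rw [le_div_iff₀ h3]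
  have h4 := Real.exp_neg_one_lt_d9
  calc Real.exp (-b) * (1 + (b - 1) + (b - 1) ^ 2 / 2)
      ≤ Real.exp (-b) * Real.exp (b - 1) := by
        apply mul_le_mul_of_nonneg_left h2 (Real.exp_pos _).le
    _ = Real.exp (-1) := by rw [← Real.exp_add]; congr 1; ring
    _ ≤ 0.3679 := by linarith

/-- Lower bound `e^{-a} ≥ e^{-1}(1-(b-1)/2)²` for `a ≤ b`, `b ≤ 3`. -/
private lemma exp_lo {a b : ℝ} (hb : b ≤ 3) (hab : a ≤ b) :
    0.3678 * (1 - (b - 1) / 2) ^ 2 ≤ Real.exp (-a) := by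
  have h1 : Real.exp (-b) ≤ Real.exp (-a) := Real.exp_le_exp.mpr (by linarith)
  refine le_trans ?_ h1
  have h2 : 1 - (b - 1) / 2 ≤ Real.exp (-((b - 1) / 2)) := by
    have := Real.add_one_le_exp (-((b - 1) / 2))
    linarith
  have h0 : 0 ≤ 1 - (b - 1) / 2 := by linarith
  have h3 : (1 - (b - 1) / 2) ^ 2 ≤ Real.exp (-((b - 1) / 2)) ^ 2 := pow_le_pow_left₀ h0 h2 2
  have h4 := Real.exp_neg_one_gt_d9
  calc 0.3678 * (1 - (b - 1) / 2) ^ 2 ≤ Real.exp (-1) * Real.exp (-((b - 1) / 2)) ^ 2 := by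
        apply mul_le_mul (by linarith) h3 (by positivity) (Real.exp_pos _).le
    _ = Real.exp (-b) := by
        rw [pow_two, ← Real.exp_add, ← Real.exp_add]
        congr 1; ring

theorem nums : NUMS := by
  constructor
  · intro n ℓ hn2 hn3 hℓ h
    by_contra hcon
    push Not at hcon
    have t0 : Real.exp (-ℓ) ≤ 0.3679 := by
      have h1 : Real.exp (-ℓ) ≤ Real.exp (-1) := Real.exp_le_exp.mpr (by linarith)
      have := Real.exp_neg_one_lt_d9
      linarith
    have t1 : Real.exp (-(Real.sqrt 2 * ℓ)) / Real.sqrt 2 ≤ 0.1777 := by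
      have e : Real.exp (-(Real.sqrt 2 * ℓ)) ≤ 0.3679 / (1 + (1.4 - 1) + (1.4 - 1) ^ 2 / 2) := by
        apply exp_up (by norm_num)
        nlinarith [s2a]
      have hp : 0 < Real.sqrt 2 := by linarith [s2a]
      rw [div_le_iff₀ hp]
      refine e.trans ?_
      calc (0.3679 : ℝ) / (1 + (1.4 - 1) + (1.4 - 1) ^ 2 / 2) ≤ 0.1777 * 1.4 := by norm_num
        _ ≤ 0.1777 * Real.sqrt 2 := by linarith [s2a]
    have t2 : Real.exp (-(Real.sqrt 3 * ℓ)) / Real.sqrt 3 ≤ 0.1114 := by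
      have e : Real.exp (-(Real.sqrt 3 * ℓ)) ≤ 0.3679 / (1 + (1.7 - 1) + (1.7 - 1) ^ 2 / 2) := by
        apply exp_up (by norm_num)
        nlinarith [s3a]
      have hp : 0 < Real.sqrt 3 := by linarith [s3a]
      rw [div_le_iff₀ hp]
      refine e.trans ?_
      calc (0.3679 : ℝ) / (1 + (1.7 - 1) + (1.7 - 1) ^ 2 / 2) ≤ 0.1114 * 1.7 := by norm_num
        _ ≤ 0.1114 * Real.sqrt 3 := by linarith [s3a]
    have a1 : ((1 : ℝ) + 1) = 2 := by norm_num
    have a2 : ((2 : ℝ) + 1) = 3 := by norm_num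
    obtain rfl | rfl : n = 2 ∨ n = 3 := by omega
    · unfold sl at h
      rw [Finset.sum_range_succ, Finset.sum_range_succ, Finset.sum_range_zero] at h
      simp only [Nat.reduceSub, Nat.choose_self, Nat.choose_zero_right, Nat.cast_one, Nat.cast_zero,
        zero_add, Real.sqrt_one, one_mul, div_one, a1] at h
      linarith
    · unfold sl at h
      rw [Finset.sum_range_succ, Finset.sum_range_succ, Finset.sum_range_succ,
        Finset.sum_range_zero] at h
      simp only [Nat.reduceSub, Nat.choose_self, Nat.choose_zero_right, Nat.cast_one, Nat.cast_zero,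
        zero_add, Real.sqrt_one, one_mul, div_one, a1, a2, Nat.choose_one_right, Nat.cast_ofNat] at h
      linarith
  · intro n ℓ hn hℓ hℓ1
    unfold sl
    have hsub : Finset.range 3 ⊆ Finset.range n := Finset.range_subset_range.mpr (by omega)
    have h0 : ∀ m ∈ Finset.range n, m ∉ Finset.range 3 →
        0 ≤ ((n - 1).choose m : ℝ) *
          (Real.exp (-(Real.sqrt (m + 1) * ℓ)) / Real.sqrt (m + 1)) := by
      intro m _ _
      positivity
    refine le_trans ?_ (Finset.sum_le_sum_of_subset_of_nonneg hsub h0)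
    rw [Finset.sum_range_succ, Finset.sum_range_succ, Finset.sum_range_succ,
        Finset.sum_range_zero]
    have a1 : ((1 : ℝ) + 1) = 2 := by norm_num
    have a2 : ((2 : ℝ) + 1) = 3 := by norm_num
    have t0 : 0.3678 ≤ Real.exp (-ℓ) := by
      have h1 : Real.exp (-1) ≤ Real.exp (-ℓ) := Real.exp_le_exp.mpr (by linarith)
      have := Real.exp_neg_one_gt_d9
      linarith
    have t1 : 0.161 ≤ Real.exp (-(Real.sqrt 2 * ℓ)) / Real.sqrt 2 := by
      have e : 0.3678 * (1 - (1.42 - 1) / 2) ^ 2 ≤ Real.exp (-(Real.sqrt 2 * ℓ)) := by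
        apply exp_lo (by norm_num)
        nlinarith [s2b, s2a]
      have hp : 0 < Real.sqrt 2 := by linarith [s2a]
      rw [le_div_iff₀ hp]
      refine le_trans ?_ e
      calc 0.161 * Real.sqrt 2 ≤ 0.161 * 1.42 := by linarith [s2b]
        _ ≤ 0.3678 * (1 - (1.42 - 1) / 2) ^ 2 := by norm_num
    have t2 : 0.083 ≤ Real.exp (-(Real.sqrt 3 * ℓ)) / Real.sqrt 3 := by
      have e : 0.3678 * (1 - (1.74 - 1) / 2) ^ 2 ≤ Real.exp (-(Real.sqrt 3 * ℓ)) := by
        apply exp_lo (by norm_num)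
        nlinarith [s3b, s3a]
      have hp : 0 < Real.sqrt 3 := by linarith [s3a]
      rw [le_div_iff₀ hp]
      refine le_trans ?_ e
      calc 0.083 * Real.sqrt 3 ≤ 0.083 * 1.74 := by linarith [s3b]
        _ ≤ 0.3678 * (1 - (1.74 - 1) / 2) ^ 2 := by norm_num
    have c1 : (3 : ℝ) ≤ ((n - 1).choose 1 : ℝ) := by
      have : 3 ≤ (n - 1).choose 1 := by rw [Nat.choose_one_right]; omega
      exact_mod_cast this
    have c2 : (3 : ℝ) ≤ ((n - 1).choose 2 : ℝ) := by
      have : (3 : ℕ).choose 2 ≤ (n - 1).choose 2 := Nat.choose_le_choose 2 (by omega)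
      have h3 : (3 : ℕ).choose 2 = 3 := by decide
      rw [h3] at this
      exact_mod_cast this
    simp only [Nat.choose_zero_right, Nat.cast_one, Nat.cast_zero, zero_add, Real.sqrt_one, one_mul,
      div_one, a1, a2, Nat.cast_ofNat]
    have m1 : 3 * 0.161 ≤ ((n - 1).choose 1 : ℝ) *
        (Real.exp (-(Real.sqrt 2 * ℓ)) / Real.sqrt 2) :=
      mul_le_mul c1 t1 (by norm_num) (by positivity)
    have m2 : 3 * 0.083 ≤ ((n - 1).choose 2 : ℝ) *
        (Real.exp (-(Real.sqrt 3 * ℓ)) / Real.sqrt 3) :=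
      mul_le_mul c2 t2 (by norm_num) (by positivity)
    linarith

end Pool.Agent.Helper90.MM
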