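import Pool.Agent.Helper70.MM.Goals

/-!
# MP_91ee6f_gt, packet MM-TH2: lower bound of the threshold

The centre is a minimum point of the potential of `σ_R` as soon as `P(0) < P(R e)` (by the
minimum principle `MINP`), so `(n-1) e^{-R}/R ≤ e^{-R}` by `ULOC`, i.e. `n - 1 ≤ R`.
-/

open MeasureTheory Set Metric
open scoped ENNReal RealInnerProductSpace Topology
open Pool.Agent.Results.MP_91ee6f_gt

namespace Pool.Agent.Helper90.MM

open Pool.Agent.Helper70.MM

theorem U_centre (h1 : SPH1) {n : ℕ} (hn : 1 ≤ n) {R : ℝ} (hR : 0 < R) (j : ℕ) :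
    U (sphUnif n R) j 0 = om j R := by
  obtain ⟨hp, hae, -⟩ := h1 n hn R
  have hae := hae hR.le
  have : ∀ᵐ y ∂(sphUnif n R), om j (dist (0 : En n) y) = om j R := by
    filter_upwards [hae] with y hy
    rw [dist_zero_left, hy]
  unfold U
  rw [integral_congr_ae this]
  simp

/-- Stronger form: every `R < n - 1`. -/
theorem th2_strong (h1 : SPH1) (hU : ULOC) (hM : MINP) (n : ℕ) (hn : 1 ≤ n) (R : ℝ)
    (hR : 0 < R) (hRn : R < (n : ℝ) - 1) : sphEnergy n R ≤ Real.exp (-R) := by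
  by_contra hcon
  rw [not_le] at hcon
  obtain ⟨m0, -, -, m3⟩ := hM n hn R hR
  obtain ⟨hp, hae, -⟩ := h1 n hn R
  have hae := hae hR.le
  have hloc : IsLocalMin (U (sphUnif n R) 0) 0 := by
    have hball : ball (0 : En n) R ∈ 𝓝 (0 : En n) := ball_mem_nhds _ hR
    filter_upwards [hball] with x hx
    have hx' : ‖x‖ ≤ R := (mem_ball_zero_iff.1 hx).le
    have h3 := m3 x hx'
    rw [min_eq_left hcon.le] at h3
    have e : ∀ z : En n, U (sphUnif n R) 0 z = potential (sphUnif n R) z := by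
      intro z
      unfold U potential
      simp only [om_zero]
    rw [e, e, m0]
    exact h3
  have hdist : ∀ᵐ y ∂(sphUnif n R), R ≤ dist (0 : En n) y := by
    filter_upwards [hae] with y hy
    rw [dist_zero_left, hy]
  have h4 := (hU n 0 (sphUnif n R) inferInstance 0 R hR hdist).2 hloc
  rw [U_centre h1 hn hR, U_centre h1 hn hR, om_zero] at h4
  have e1 : om (0 + 1) R = Real.exp (-R) / R := om_one R
  rw [e1] at h4
  have hpos := Real.exp_pos (-R)
  have h5 : ((n : ℝ) - 1 - 2 * ((0 : ℕ) : ℝ)) * (Real.exp (-R) / R) * R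
      ≤ Real.exp (-R) * R := mul_le_mul_of_nonneg_right h4 hR.le
  have h6 : ((n : ℝ) - 1 - 2 * ((0 : ℕ) : ℝ)) * (Real.exp (-R) / R) * R
      = ((n : ℝ) - 1) * Real.exp (-R) := by
    push_cast
    field_simp
    ring
  rw [h6] at h5
  have h7 : R * Real.exp (-R) < ((n : ℝ) - 1) * Real.exp (-R) :=
    mul_lt_mul_of_pos_right hRn hpos
  linarith

/-- Packet MM-TH2. -/
theorem th2 : SPH1 → SPH2 → ULOC → MINP → TH2 := by
  intro h1 _ hU hM n hn R hR hRn
  have hn1 : (0 : ℝ) < (n : ℝ) - 1 := by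
    have : (2 : ℝ) ≤ (n : ℝ) := by exact_mod_cast hn
    linarith
  refine th2_strong h1 hU hM n (by omega) R hR (hRn.trans_lt ?_)
  exact div_lt_self hn1 (by
    rw [show (1 : ℝ) = Real.sqrt 1 from Real.sqrt_one.symm]
    exact Real.sqrt_lt_sqrt (by norm_num) (by norm_num))

/-- With the continuity `TH4`: every `R ≤ n - 1`. -/
theorem th2_closed (h1 : SPH1) (hU : ULOC) (hM : MINP) (h4 : TH4) (n : ℕ) (hn : 2 ≤ n) (R : ℝ)
    (hR : 0 < R) (hRn : R ≤ (n : ℝ) - 1) : sphEnergy n R ≤ Real.exp (-R) := by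
  rcases hRn.lt_or_eq with h | h
  · exact th2_strong h1 hU hM n (by omega) R hR h
  · have hc : ContinuousAt (sphEnergy n) R := (h4 n (by omega)).continuousAt (Ioi_mem_nhds hR)
    have hc1 : Filter.Tendsto (sphEnergy n) (𝓝[<] R) (𝓝 (sphEnergy n R)) :=
      hc.tendsto.mono_left nhdsWithin_le_nhds
    have hc2 : Filter.Tendsto (fun r : ℝ => Real.exp (-r)) (𝓝[<] R) (𝓝 (Real.exp (-R))) := by
      have : Continuous fun r : ℝ => Real.exp (-r) := by fun_prop
      exact this.continuousAt.tendsto.mono_left nhdsWithin_le_nhds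
    refine le_of_tendsto_of_tendsto hc1 hc2 ?_
    have hev : ∀ᶠ r in 𝓝[<] R, 0 < r := nhdsWithin_le_nhds (Ioi_mem_nhds hR)
    filter_upwards [hev, self_mem_nhdsWithin] with r hr hr'
    exact th2_strong h1 hU hM n (by omega) r hr (lt_of_lt_of_eq hr' h)

end Pool.Agent.Helper90.MM
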